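import Mathlib
import Pool.Agent.H47.SIC.Quadric2

set_option autoImplicit false

namespace Pool.Agent.Results.MP_d0f9e0_co.QuadricZeros

/-- `x` is a maximal equiangular tight frame in `ℂ^d`: `d²` unit vectors whose pairwise inner
products all have modulus `1/√(d+1)`. -/
def IsMaximalETF (d : ℕ) (x : Fin (d ^ 2) → EuclideanSpace ℂ (Fin d)) : Prop :=
  (∀ i, ‖x i‖ = 1) ∧ ∀ i j, i ≠ j → ‖inner ℂ (x i) (x j)‖ = 1 / Real.sqrt ((d : ℝ) + 1)

/-- The value `∑ Q_ab v_a v_b` at `v` of the quadratic form with matrix `Q`. -/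
def quad {d : ℕ} (Q : Matrix (Fin d) (Fin d) ℂ) (v : EuclideanSpace ℂ (Fin d)) : ℂ :=
  ∑ a, ∑ b, Q a b * (v a * v b)

/-- The triple product `⟨x_i,x_j⟩⟨x_j,x_k⟩⟨x_k,x_i⟩`. -/
noncomputable def tripleProduct {d : ℕ} (x : Fin (d ^ 2) → EuclideanSpace ℂ (Fin d))
    (i j k : Fin (d ^ 2)) : ℂ :=
  inner ℂ (x i) (x j) * inner ℂ (x j) (x k) * inner ℂ (x k) (x i)

open Pool.Agent.H47.SIC Pool.Agent.Y387.SF

theorem conj_triple {d : ℕ} (x : Fin (d ^ 2) → EuclideanSpace ℂ (Fin d)) (i j k : Fin (d ^ 2)) :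
    star (tripleProduct x i j k) = tripleProduct x k j i := by
  unfold tripleProduct
  have h1 : ∀ a b, star (inner ℂ (x a) (x b)) = inner ℂ (x b) (x a) := fun a b =>
    inner_conj_symm _ _
  rw [star_mul', star_mul', h1, h1, h1]
  ring

/-- A triple product of three different lines is real exactly if its square is `1/(d+1)³`. -/
theorem real_iff {d : ℕ} {x : Fin (d ^ 2) → EuclideanSpace ℂ (Fin d)} (h : IsEtf d x)
    {i j k : Fin (d ^ 2)} (hij : i ≠ j) (hjk : j ≠ k) (hki : k ≠ i) :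
    (tripleProduct x i j k).im = 0 ↔ ((d : ℂ) + 1) ^ 3 * tripleProduct x i j k ^ 2 = 1 := by
  have hdC : (d : ℂ) + 1 ≠ 0 := by exact_mod_cast d.succ_ne_zero
  have hmi : ∀ {i j : Fin (d ^ 2)}, i ≠ j → inner ℂ (x i) (x j) * inner ℂ (x j) (x i) =
      (1 : ℂ) / ((d : ℂ) + 1) := by
    intro i j hij
    rw [h.mul_inner, if_neg hij, zero_add]
  have hnorm : ((d : ℂ) + 1) ^ 3 * (tripleProduct x i j k * star (tripleProduct x i j k)) = 1 := by
    rw [conj_triple]
    unfold tripleProduct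
    calc ((d : ℂ) + 1) ^ 3 * (inner ℂ (x i) (x j) * inner ℂ (x j) (x k) * inner ℂ (x k) (x i) *
          (inner ℂ (x k) (x j) * inner ℂ (x j) (x i) * inner ℂ (x i) (x k)))
        = ((d : ℂ) + 1) ^ 3 * ((inner ℂ (x i) (x j) * inner ℂ (x j) (x i)) *
          (inner ℂ (x j) (x k) * inner ℂ (x k) (x j)) *
          (inner ℂ (x k) (x i) * inner ℂ (x i) (x k))) := by ring
      _ = 1 := by rw [hmi hij, hmi hjk, hmi hki]; field_simp
  set t := tripleProduct x i j k with ht
  constructor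
  · intro him
    have hst : star t = t := Complex.conj_eq_iff_im.mpr him
    rw [hst, ← sq] at hnorm
    exact hnorm
  · intro hsq
    have h3 : ((d : ℂ) + 1) ^ 3 * t * (t - star t) = 0 := by
      linear_combination hsq - hnorm
    have ht0 : t ≠ 0 := by
      rintro h0
      rw [h0] at hsq
      simp at hsq
    have h4 : t - star t = 0 := by
      rcases mul_eq_zero.mp h3 with h5 | h5
      · rcases mul_eq_zero.mp h5 with h6 | h6
        · exact absurd h6 (pow_ne_zero 3 hdC)
        · exact absurd h6 ht0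
      · exact h5
    exact Complex.conj_eq_iff_im.mp (sub_eq_zero.mp h4).symm

theorem real_of_not_distinct {d : ℕ} {x : Fin (d ^ 2) → EuclideanSpace ℂ (Fin d)} (h : IsEtf d x)
    {i j k : Fin (d ^ 2)} (hd : i = j ∨ j = k ∨ k = i) : (tripleProduct x i j k).im = 0 := by
  apply Complex.conj_eq_iff_im.mp
  change star (tripleProduct x i j k) = tripleProduct x i j k
  rw [conj_triple]
  unfold tripleProduct
  rcases hd with rfl | rfl | rfl <;> ring

/-- **Quadrics through the lines of a maximal ETF.** Let `x` be a maximal ETF in `ℂ^d`. A non-zero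
quadratic form vanishes on at most `d² - d` of its `d²` lines; and a set `T` of `d` lines is such
that some non-zero quadratic form vanishes on all the lines outside `T` if and only if all triple
products of lines of `T` are real. -/
theorem result {d : ℕ} (hd : 1 ≤ d) (x : Fin (d ^ 2) → EuclideanSpace ℂ (Fin d))
    (hx : IsMaximalETF d x) :
    (∀ Q : Matrix (Fin d) (Fin d) ℂ, Q.IsSymm → Q ≠ 0 →
      {j | quad Q (x j) = 0}.ncard ≤ d ^ 2 - d) ∧
    ∀ T : Finset (Fin (d ^ 2)), T.card = d →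
      ((∃ Q : Matrix (Fin d) (Fin d) ℂ, Q.IsSymm ∧ Q ≠ 0 ∧ ∀ j, j ∉ T → quad Q (x j) = 0) ↔
        ∀ i ∈ T, ∀ j ∈ T, ∀ k ∈ T, (tripleProduct x i j k).im = 0) := by
  classical
  have h : IsEtf d x := ⟨hx.1, hx.2⟩
  have hcard : Fintype.card (Fin (d ^ 2)) = d ^ 2 := by simp
  refine ⟨?_, ?_⟩
  · intro Q hQ h0
    have h1 := Quad.card_zeros h hd hcard Q hQ h0
    have h2 : {j | quad Q (x j) = 0} =
        ((Finset.univ.filter (fun j => Quad.qf Q (x j) = 0) : Finset (Fin (d ^ 2))) :
          Set (Fin (d ^ 2))) := by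
      ext j
      simp only [Set.mem_setOf_eq, Finset.coe_filter, Finset.mem_univ, true_and]
      rfl
    rw [h2, Set.ncard_coe_finset]
    omega
  · intro T hT
    constructor
    · rintro ⟨Q, hQ, h0, hz⟩ i hi j hj k hk
      by_cases hdis : i = j ∨ j = k ∨ k = i
      · exact real_of_not_distinct h hdis
      · push Not at hdis
        obtain ⟨hij, hjk, hki⟩ := hdis
        rw [real_iff h hij hjk hki]
        exact Quad.real_of_eq h hd hcard Q hQ h0 T hT hz hi hj hk hij hjk hki
    · intro hreal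
      obtain ⟨Q, hQ, h0, hz⟩ := Quad.exists_quadric h hd hcard T hT (by
        intro i hi j hj k hk hij hjk hki
        exact (real_iff h hij hjk hki).mp (hreal i hi j hj k hk))
      exact ⟨Q, hQ, h0, hz⟩

end Pool.Agent.Results.MP_d0f9e0_co.QuadricZeros
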